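import Pool.Agent.Helper40.AC.Stmts

/-!
Project AC (MP_4c91e2_ag), packet P15: contraction of finitely generated projective modules over
the polynomial ring.
-/

open scoped ContDiff Topology Matrix Kronecker TensorProduct
open MeasureTheory
open Pool.Agent.Helper40.AC

namespace Pool.Agent.Helper66.AC

noncomputable section

/-! ### Linear algebra -/

/-- A retract is the range of the corresponding idempotent. -/
def retractEquiv {R M N : Type} [CommRing R] [AddCommGroup M] [Module R M] [AddCommGroup N]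
    [Module R N] (f : M →ₗ[R] N) (g : N →ₗ[R] M) (h : g ∘ₗ f = LinearMap.id) :
    M ≃ₗ[R] LinearMap.range (f ∘ₗ g) :=
  LinearEquiv.ofLinearMap
    (f.codRestrict (LinearMap.range (f ∘ₗ g)) (fun m => ⟨f m, by
      have := LinearMap.congr_fun h m
      simp only [LinearMap.comp_apply, LinearMap.id_apply] at this ⊢
      rw [this]⟩))
    (g ∘ₗ (LinearMap.range (f ∘ₗ g)).subtype)
    (by
      ext ⟨y, x, rfl⟩
      have := LinearMap.congr_fun h (g x)
      simp only [LinearMap.comp_apply, LinearMap.id_apply] at this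
      simp [this])
    (by
      ext m
      have := LinearMap.congr_fun h m
      simpa using this)

theorem baseChange_toLin {P B : Type} [CommRing P] [CommRing B] [Algebra P B] {n : Type}
    [Fintype n] [DecidableEq n] (A : Matrix n n P) :
    (TensorProduct.piScalarRight P B B n).toLinearMap ∘ₗ (Matrix.toLin' A).baseChange B =
      Matrix.toLin' (A.map (algebraMap P B)) ∘ₗ
        (TensorProduct.piScalarRight P B B n).toLinearMap := by
  apply TensorProduct.AlgebraTensorModule.ext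
  intro b v
  ext i
  simp [Matrix.mulVec, dotProduct, Finset.sum_mul, Algebra.smul_def, mul_assoc]

/-- Base change of the range of an idempotent matrix. -/
theorem baseChange_range {P B : Type} [CommRing P] [CommRing B] [Algebra P B] {n : Type}
    [Fintype n] [DecidableEq n] (eps : Matrix n n P) (he : eps * eps = eps) :
    Nonempty ((B ⊗[P] LinearMap.range (Matrix.toLin' eps)) ≃ₗ[B]
      LinearMap.range (Matrix.toLin' (eps.map (algebraMap P B)))) := by
  have hid : ∀ v, Matrix.toLin' eps (Matrix.toLin' eps v) = Matrix.toLin' eps v := by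
    intro v
    rw [← LinearMap.comp_apply, ← Matrix.toLin'_mul, he]
  let inc : LinearMap.range (Matrix.toLin' eps) →ₗ[P] (n → P) :=
    (LinearMap.range (Matrix.toLin' eps)).subtype
  let pro : (n → P) →ₗ[P] LinearMap.range (Matrix.toLin' eps) :=
    (Matrix.toLin' eps).rangeRestrict
  have h1 : pro ∘ₗ inc = LinearMap.id := by
    apply LinearMap.ext
    rintro ⟨y, x, rfl⟩
    apply Subtype.ext
    exact hid x
  have h2 : inc ∘ₗ pro = Matrix.toLin' eps := rfl
  let Φ : (B ⊗[P] (n → P)) ≃ₗ[B] (n → B) := TensorProduct.piScalarRight P B B n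
  let f : (B ⊗[P] LinearMap.range (Matrix.toLin' eps)) →ₗ[B] (n → B) :=
    Φ.toLinearMap ∘ₗ inc.baseChange B
  let g : (n → B) →ₗ[B] (B ⊗[P] LinearMap.range (Matrix.toLin' eps)) :=
    pro.baseChange B ∘ₗ Φ.symm.toLinearMap
  have hgf : g ∘ₗ f = LinearMap.id := by
    have : g ∘ₗ f = pro.baseChange B ∘ₗ inc.baseChange B := by
      apply LinearMap.ext
      intro x
      simp [f, g]
    rw [this, ← LinearMap.baseChange_comp, h1, LinearMap.baseChange_id]
  have hfg : f ∘ₗ g = Matrix.toLin' (eps.map (algebraMap P B)) := by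
    have e1 : f ∘ₗ g = Φ.toLinearMap ∘ₗ (inc ∘ₗ pro).baseChange B ∘ₗ
        Φ.symm.toLinearMap := by
      rw [LinearMap.baseChange_comp]
      rfl
    rw [e1, h2]
    have e2 := baseChange_toLin (B := B) eps
    apply LinearMap.ext
    intro v
    have e3 := LinearMap.congr_fun e2 (Φ.symm v)
    simpa [Φ] using e3
  exact ⟨(retractEquiv f g hgf).trans (LinearEquiv.ofEq _ _ (by rw [hfg]))⟩

/-- The trace of an idempotent matrix over a field is a natural number. -/
theorem trace_field {K : Type} [Field K] {n : Type} [Fintype n] [DecidableEq n]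
    (e : Matrix n n K) (he : e * e = e) : ∃ r : ℕ, e.trace = r := by
  refine ⟨Module.finrank K (LinearMap.range (Matrix.toLin' e)), ?_⟩
  have h1 : IsIdempotentElem (Matrix.toLin' e) := by
    unfold IsIdempotentElem
    rw [Module.End.mul_eq_comp, ← Matrix.toLin'_mul, he]
  have h2 := LinearMap.IsProj.trace (LinearMap.IsIdempotentElem.isProj_range _ h1)
  rw [← h2, Matrix.trace_toLin'_eq]

/-- The trace of an idempotent matrix over a domain is a natural number. -/
theorem trace_domain {P : Type} [CommRing P] [IsDomain P] {n : Type} [Fintype n] [DecidableEq n]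
    (e : Matrix n n P) (he : e * e = e) : ∃ r : ℕ, e.trace = r := by
  obtain ⟨r, hr⟩ := trace_field (e.map (algebraMap P (FractionRing P)))
    (by rw [← Matrix.map_mul, he])
  refine ⟨r, ?_⟩
  apply IsFractionRing.injective P (FractionRing P)
  rw [map_natCast, ← hr, Matrix.trace, Matrix.trace, map_sum]
  rfl

/-! ### The homotopy -/

/-- The matrix `eps` evaluated at `s • κ`. -/
def epsS (κ : Fin 8 → BB) {n : Type} (eps : Matrix n n (MvPolynomial (Fin 8) ℂ)) (s : ℝ) :
    Matrix n n BB :=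
  eps.map (MvPolynomial.aeval (fun l => (s : ℂ) • κ l) : MvPolynomial (Fin 8) ℂ →ₐ[ℂ] BB)

theorem epsS_idem (κ : Fin 8 → BB) {n : Type} [Fintype n] [DecidableEq n]
    (eps : Matrix n n (MvPolynomial (Fin 8) ℂ)) (he : eps * eps = eps) (s : ℝ) :
    epsS κ eps s * epsS κ eps s = epsS κ eps s := by
  unfold epsS
  rw [← Matrix.map_mul, he]

theorem aeval_smooth (κ : Fin 8 → BB) (p : MvPolynomial (Fin 8) ℂ) :
    ContDiff ℝ ∞ (fun q : ℝ × Ang =>
      ((MvPolynomial.aeval (fun l => (q.1 : ℂ) • κ l) : MvPolynomial (Fin 8) ℂ →ₐ[ℂ] BB) p).fn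
        q.2) := by
  induction p using MvPolynomial.induction_on with
  | C a =>
    simp only [MvPolynomial.algHom_C, BB.fn_algebraMap]
    exact contDiff_const
  | add p q hp hq =>
    simp only [map_add, BB.fn_add]
    exact hp.add hq
  | mul_X p i hp =>
    simp only [map_mul, BB.fn_mul, MvPolynomial.aeval_X, BB.fn_smul]
    refine hp.mul ?_
    exact (Complex.ofRealCLM.contDiff.comp contDiff_fst).mul ((κ i).smooth.comp contDiff_snd)

theorem epsS_one (κ : Fin 8 → BB) {n : Type} (eps : Matrix n n (MvPolynomial (Fin 8) ℂ)) :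
    epsS κ eps 1 =
      eps.map (MvPolynomial.aeval κ : MvPolynomial (Fin 8) ℂ →ₐ[ℂ] BB) := by
  unfold epsS
  congr 2
  simp

theorem epsS_zero (κ : Fin 8 → BB) {n : Type} (eps : Matrix n n (MvPolynomial (Fin 8) ℂ)) :
    epsS κ eps 0 =
      (eps.map (MvPolynomial.constantCoeff : MvPolynomial (Fin 8) ℂ →+* ℂ)).map
        (algebraMap ℂ BB) := by
  unfold epsS
  ext1 i j
  simp only [Matrix.map_apply, Complex.ofReal_zero, zero_smul]
  exact MvPolynomial.aeval_zero' _

/-- `Phi` of the Kronecker product with a constant idempotent. -/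
theorem phi_const (h2 : S_EQUIV) (h4 : S_KRON) (h7 : S_PD) {m n : Type} [Fintype m]
    [DecidableEq m] [Fintype n] [DecidableEq n] (e : Matrix m m BB) (he : e * e = e)
    (c : Matrix n n ℂ) (hc : c * c = c) (r : ℕ) (hr : c.trace = r) :
    Phi (e ⊗ₖ c.map (algebraMap ℂ BB)) = r * Phi e := by
  obtain ⟨hadd, hmul, -, -, hconst, -⟩ := h7
  set C : Matrix n n BB := c.map (algebraMap ℂ BB) with hC
  have hCC : C * C = C := by rw [hC, ← Matrix.map_mul, hc]
  have hdC : ∀ j, C.map (pd j) = 0 := by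
    intro j
    ext1 a b
    simp only [hC, Matrix.map_apply, Matrix.zero_apply]
    exact hconst j _
  have hF : ∀ j k, Fc pd C j k = 0 := by
    intro j k
    simp [Fc, hdC]
  have hom : ∀ a b d f, om pd C a b d f = 0 := by
    intro a b d f
    simp [om, hF]
  have hk := h4 (D := pd) hadd hmul C e hCC he (by intro j k; rw [hF]; simp) 0 1 2 3
  have htr : C.trace = algebraMap ℂ BB (r : ℂ) := by
    rw [← hr, hC, Matrix.trace, Matrix.trace, map_sum]
    rfl
  have hsw : Phi (e ⊗ₖ C) = Phi (C ⊗ₖ e) := by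
    have hperm : (C ⊗ₖ e) = (e ⊗ₖ C).submatrix Prod.swap Prod.swap := by
      ext ⟨a, b⟩ ⟨a', b'⟩
      simp [Matrix.kroneckerMap_apply, mul_comm]
    have hee : (e ⊗ₖ C) * (e ⊗ₖ C) = e ⊗ₖ C := by
      rw [← Matrix.mul_kronecker_mul, he, hCC]
    have hff : (C ⊗ₖ e) * (C ⊗ₖ e) = C ⊗ₖ e := by
      rw [← Matrix.mul_kronecker_mul, he, hCC]
    refine h2 (e ⊗ₖ C) (C ⊗ₖ e) ((e ⊗ₖ C).submatrix id (Equiv.prodComm n m))
      ((e ⊗ₖ C).submatrix (Equiv.prodComm n m) id) hee hff ?_ ?_
    · rw [Matrix.submatrix_mul_equiv, hee]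
      rfl
    · rw [hperm]
      have := Matrix.submatrix_mul_equiv (e ⊗ₖ C) (e ⊗ₖ C) (Equiv.prodComm n m)
        (Equiv.refl (m × n)) (Equiv.prodComm n m)
      rw [hee] at this
      exact this
  rw [hsw, Phi, Phi, hk, hom, mul_zero, zero_add, htr]
  simp only [BB.fn_mul, BB.fn_algebraMap]
  rw [integral_const_mul]

theorem contr_ok (h1 : S_HOM) (h2 : S_EQUIV) (_h3 : S_BLOCK) (h4 : S_KRON) (h5 : S_RANGE)
    (h6 : S_TENS) (h7 : S_PD) : S_CONTR := by
  intro κ φ hφ
  letI := algK κ
  intro Q _ _ hfin hproj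
  obtain ⟨n, eps, heps, ⟨eQ⟩⟩ := h5 (MvPolynomial (Fin 8) ℂ) Q hfin hproj
  obtain ⟨r, hr⟩ := trace_domain eps heps
  refine ⟨r, ?_⟩
  intro E _ _ hEf hEp
  obtain ⟨m, e, he, ⟨eE⟩⟩ := h5 BB E hEf hEp
  obtain ⟨b⟩ := baseChange_range (B := BB) eps heps
  have hmap : eps.map (algebraMap (MvPolynomial (Fin 8) ℂ) BB) = epsS κ eps 1 := by
    rw [epsS_one]
    rfl
  rw [hmap] at b
  have hidem := epsS_idem κ eps heps
  obtain ⟨t⟩ := h6 BB (Fin m) (Fin n) e (epsS κ eps 1) he (hidem 1)
  have q1 : φ.val (E ⊗[BB] (BB ⊗[MvPolynomial (Fin 8) ℂ] Q)) =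
      φ.val (LinearMap.range (Matrix.toLin' (e ⊗ₖ epsS κ eps 1))) := by
    apply φ.congr
    refine LinearEquiv.trans (TensorProduct.congr eE
      (LinearEquiv.trans (LinearEquiv.baseChange (MvPolynomial (Fin 8) ℂ) BB _ _ eQ) b)) t
  have hKe : ∀ s, (e ⊗ₖ epsS κ eps s) * (e ⊗ₖ epsS κ eps s) = e ⊗ₖ epsS κ eps s := by
    intro s
    rw [← Matrix.mul_kronecker_mul, he, hidem]
  have hhom := h1 (fun s => e ⊗ₖ epsS κ eps s) (by
    rintro ⟨i, k⟩ ⟨j, l⟩
    have : (fun q : ℝ × Ang => ((e ⊗ₖ epsS κ eps q.1) (i, k) (j, l)).fn q.2) =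
        fun q : ℝ × Ang => (e i j).fn q.2 *
          ((MvPolynomial.aeval (fun l => (q.1 : ℂ) • κ l) : MvPolynomial (Fin 8) ℂ →ₐ[ℂ] BB)
            (eps k l)).fn q.2 := by
      funext q
      simp [Matrix.kroneckerMap_apply, epsS]
    rw [this]
    exact ((e i j).smooth.comp contDiff_snd).mul (aeval_smooth κ (eps k l))) hKe
  have hhom' : Phi (e ⊗ₖ epsS κ eps 0) = Phi (e ⊗ₖ epsS κ eps 1) := hhom
  set c : Matrix (Fin n) (Fin n) ℂ :=
    eps.map (MvPolynomial.constantCoeff : MvPolynomial (Fin 8) ℂ →+* ℂ) with hcdef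
  have hc : c * c = c := by rw [hcdef, ← Matrix.map_mul, heps]
  have hctr : c.trace = r := by
    have : c.trace = MvPolynomial.constantCoeff eps.trace := by
      rw [hcdef, Matrix.trace, Matrix.trace, map_sum]
      rfl
    rw [this, hr, map_natCast]
  have hph := phi_const h2 h4 h7 e he c hc r hctr
  rw [hcdef, ← epsS_zero κ eps, hhom'] at hph
  have htr1 : (epsS κ eps 1).trace = r := by
    have : (epsS κ eps 1).trace =
        (MvPolynomial.aeval κ : MvPolynomial (Fin 8) ℂ →ₐ[ℂ] BB) eps.trace := by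
      rw [epsS_one, Matrix.trace, Matrix.trace, map_sum]
      rfl
    rw [this, hr, map_natCast]
  have hfe := hφ (Fin m) e he
  rw [q1, hφ _ _ (hKe 1), φ.congr E _ eE, hfe, hph, Matrix.trace_kronecker, htr1]
  rw [Prod.smul_mk]
  congr 1
  · simp
  · simp [mul_comm]

end

end Pool.Agent.Helper66.AC
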